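import Pool.Agent.H849.PAD.Summand
import Pool.Agent.H849.SEC.Main

/-!
# The p-adic weight-monodromy conjecture for ample sections and coverings, controlled characters

Let `X` be a projective strictly semistable scheme of relative dimension `n + c` with a polarization
`L`, and let `Z → X` be a composite of inclusions of divisors of sections of multiples of `L` which are
transversal to the strata of the special fibre and of ample coverings, `Z` of relative dimension `n`.
Assume that the characters of the commuting correspondences of the special fibre of `X` (acting on
crystalline cohomology) are controlled in `E_1^(a+1, w)(X)` for all `w ≥ 2` with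
`a + 1 + w ≤ min (m, 2n - m)`. Then the p-adic weight-monodromy conjecture holds for `H^m` of every smooth
proper scheme over `K` which over a finite extension of `K` is dominated by `Z`.
-/

set_option autoImplicit false

namespace Pool.Agent.Results.MP_6451f1_ag.ControlledSections

open Pool.Agent.Y143 Pool.Agent.N184.WM Pool.Agent.H849.SEC Pool.Agent.H849.PAD

universe u v

/-- Let `Z → X` be an ample map of projective strictly semistable schemes such that the characters are
controlled for `X`, and let `D.V = H^m_pst` of a smooth proper `K`-scheme such that, over a finite
extension of `K`, it is a direct summand of `H^m` of `Z`. Then for every `s` and every `g` in the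
Weil group of `K`, every eigenvalue of `g` on the graded piece `gr_s` of the monodromy filtration of
`D.V` is an algebraic number all of whose complex conjugates have absolute value
`p ^ ((m + s) val(g) / 2)`. -/
theorem result {Ω : Type u} [Field Ω] [CharZero Ω] [IsAlgClosed Ω] {Γ : Type} {n c q : ℕ}
    (p h : ℕ) (hq : q = p ^ h) (hh : 0 < h) (hq1 : 1 < q) (X : SpecialFibre.{u, v} Ω Γ (n + c) q)
    (hX : X.toStrataData.HasHardLefschetz (n + c)) (A : DivisorClasses X)
    (Z : SemistableModel.{u, v} Ω Γ n q) (hZ : HasAmpleMap n c X.toStrataData Z.toStrataData)
    (m : ℕ) (hA : Pool.Agent.H849.SEC.ControlledUpTo A n m) (D : WeilModule.{u, v} Ω) (hD : D.IsTwistedBy p)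
    (pull : D.V →ₗ[Ω] Z.V m) (push : Z.V m →ₗ[Ω] D.V) (hS : IsSummand D Z m h pull push) (s : ℤ)
    (g : D.G) : D.WeightMonodromyAt m p s g :=
  wm_summand Z m p h hq hh (pure_of_controlled hZ hq1 m hX A hA) D hD pull push hS s g

end Pool.Agent.Results.MP_6451f1_ag.ControlledSections
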