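import Pool.Agent.H849.PAD.Summand
import Pool.Agent.H849.NC.Stat
import Pool.Agent.H849.NC.Lef
import Pool.Agent.H849.NC.Dual
import Pool.Agent.H849.NC.Hard

/-!
# The p-adic conjecture for sections and coverings of `X × G`, from one prime `ℓ`

Let `X` be a projective strictly semistable scheme of relative dimension `n` over `O`, with a
polarization. The theories `ℓ ∈ ι` are the `ℓ`-adic cohomology theories, `ℓ ≠ p`, and the crystalline
one (for `ℓ = p`), and `X ℓ` is the cohomology of `X` for `ℓ`: the cohomology of the strata, the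
cohomology of the geometric generic fibre (`H_pst` for `ℓ = p`) and the weight spectral sequence (of
Rapoport-Zink or of Mokrane). For `1 ≤ m ≤ n` let `Z m → X` be an ample map, `Z m` of relative
dimension `m`: for example `Z n = X` and `Z m` is a transversal complete intersection of divisors of
sections of multiples of the polarization.
-/

set_option autoImplicit false

namespace Pool.Agent.Results.MP_6451f1_ag.LadicImpliesPadic

open Pool.Agent.Y143 Pool.Agent.N184.WM Pool.Agent.H849.SF Pool.Agent.H849.SEC Pool.Agent.H849.LM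
open Pool.Agent.H849.SG Pool.Agent.H849.PAD Pool.Agent.H849.NC

universe u v

/-- The p-adic conjecture holds for `H^m` of all the smooth proper `K`-schemes which, over a finite
extension of `K`, are direct summands of `H^m` of `Z` (with the residue field with `p ^ h` elements),
where `Z → X × G` is a Lefschetz map of class `∑ L ^ i ⊗ β_i`, and `G` has good reduction: `D.V` is
`H^m_pst`, and for all `s` and `g` in the Weil group every eigenvalue of `g` on the graded piece `gr_s`
of the monodromy filtration is an algebraic number all of whose complex conjugates have absolute value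
`p ^ ((m + s) val(g) / 2)`. -/
def PadicHolds {Ω : Type u} [Field Ω] [CharZero Ω] {Γ : Type} (p : ℕ)
    (X : StrataData.{u, v} Ω Γ) : Prop :=
  ∀ (Γ' Γ'' : Type) (N d q' h r : ℕ) (Y : SpecialFibre.{u, v} Ω Γ' N q')
    (P : Product X Y.toStrataData) (Z : SemistableModel.{u, v} Ω Γ'' d (p ^ h))
    (f : PullBacks Y.toStrataData Z.toStrataData) (M : ℕ → Module.End Ω P.U), 0 < h →
    1 < p ^ h → IsLefschetzMap d f → HasPolyClass P f M r →
    ∀ (m : ℕ) (D : WeilModule.{u, v} Ω), D.IsTwistedBy p → ∀ (pull : D.V →ₗ[Ω] Z.V m)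
      (push : Z.V m →ₗ[Ω] D.V), IsSummand D Z m h pull push →
      ∀ (s : ℤ) (g : D.G), D.WeightMonodromyAt m p s g

/-- The multiplicity of the eigenvalue `0` of the Laplace operator `Δ` of the special fibre. -/
noncomputable def nullity {Ω : Type u} [Field Ω] [CharZero Ω] {Γ : Type} {n q : ℕ}
    (X : SpecialFibre.{u, v} Ω Γ n q) (lam : ∀ a, Module.End Ω (X.H a)) : ℕ :=
  (laplace X.toStrataData lam).charpoly.rootMultiplicity 0

/-- **The p-adic conjecture from one prime `ℓ`.**

(1) Suppose that the p-adic conjecture holds for `H^m` of `Z m`, `1 ≤ m ≤ n` (this is known for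
`m ≤ 2`). Then it holds for all the smooth proper `K`-schemes dominated by some `Z` with a Lefschetz
map `Z → X × G` of class `∑ L ^ i ⊗ β_i`, where `G` has good reduction and the `β_i` are arbitrary
classes on `G`.

(2) Let `Λ` be the dual Lefschetz operator of the strata, `δ = [N', [Λ, d_1]]` and
`Δ = d_1 δ + δ d_1`. Suppose that the eigenvalue `0` of `Δ` has the same multiplicity for `ℓ` and for
`ℓ'` (this is the case if `Λ` is given by algebraic cycles, as then the characteristic polynomial of `Δ`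
is rational and independent of `ℓ`), and that the sums of the Betti numbers of `X` are the same. Then
the conjecture holds for `H^m` of `Z m`, `1 ≤ m ≤ n`, for `ℓ` if and only if this is true for `ℓ'`.
If `ℓ' = p`, the conclusion of (1) follows. -/
theorem result {ι : Type} {Ω : ι → Type u} [∀ ℓ, Field (Ω ℓ)] [∀ ℓ, CharZero (Ω ℓ)]
    [∀ ℓ, IsAlgClosed (Ω ℓ)] {Γ : Type} {n q : ℕ} (p : ℕ) (hq : 1 < q)
    (X : ∀ ℓ, SemistableModel.{u, v} (Ω ℓ) Γ n q) (hX : ∀ ℓ, HardLefschetz (X ℓ).toStrataData n)
    (Z : ∀ ℓ m, SemistableModel.{u, v} (Ω ℓ) Γ m q)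
    (hZ : ∀ ℓ, AreSections n (X ℓ).toStrataData (Z ℓ)) :
    (∀ ℓ, MiddlePure n (Z ℓ) → PadicHolds p (X ℓ).toStrataData) ∧
    ∀ lam : ∀ ℓ a, Module.End (Ω ℓ) ((X ℓ).H a),
      (∀ ℓ, AreDual n (X ℓ).toStrataData (lam ℓ)) → ∀ ℓ ℓ',
        nullity (X ℓ).toSpecialFibre (lam ℓ) = nullity (X ℓ').toSpecialFibre (lam ℓ') →
          bettiSum (X ℓ) = bettiSum (X ℓ') → (MiddlePure n (Z ℓ) ↔ MiddlePure n (Z ℓ')) := by
  have hiff : ∀ ℓ lam, AreDual n (X ℓ).toStrataData lam →
      (StrongForm (X ℓ).toStrataData lam ↔ MiddlePure n (Z ℓ)) := by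
    intro ℓ lam hl
    constructor
    · intro hs m h3 hm
      obtain ⟨c, hc⟩ := Nat.exists_eq_add_of_le hm
      subst hc
      exact pure_of_strong_section hq (X := (X ℓ).toSpecialFibre) hl hs
        (hZ ℓ m c h3 rfl) m
    · exact strong_of_sections hq hl (HardLefschetz.iff.1 (hX ℓ)) (Z ℓ) (hZ ℓ)
  have hpad : ∀ ℓ, MiddlePure n (Z ℓ) → PadicHolds p (X ℓ).toStrataData := by
    intro ℓ hp
    obtain ⟨lam, hl⟩ := exists_dual (X ℓ).toSpecialFibre
    have hs := (hiff ℓ lam hl).2 hp
    intro Γ' Γ'' N d q' h r Y P Z' f M hh hq' hf hM m D hD pull push hS s g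
    exact wm_summand Z' m p h rfl hh (pure_of_poly P hl hs hf hM hq' m) D hD pull push hS s g
  refine ⟨hpad, fun lam hl ℓ ℓ' hn hb => ?_⟩
  rw [← hiff ℓ' _ (hl ℓ'), ← hiff ℓ _ (hl ℓ), ← (betti_le (X ℓ') (hl ℓ')).2,
    ← (betti_le (X ℓ) (hl ℓ)).2, hb]
  show _ = nullity (X ℓ).toSpecialFibre (lam ℓ) ↔ _ = nullity (X ℓ').toSpecialFibre (lam ℓ')
  rw [hn]

end Pool.Agent.Results.MP_6451f1_ag.LadicImpliesPadic
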