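import Pool.Agent.H849.PAD.Summand
import Pool.Agent.H849.LM.Main

/-!
# The p-adic weight-monodromy conjecture: one section decides for all of them
-/

set_option autoImplicit false

namespace Pool.Agent.Results.MP_6451f1_ag.OneSectionDecides

open Pool.Agent.Y143 Pool.Agent.N184.WM Pool.Agent.H849.SEC Pool.Agent.H849.LM Pool.Agent.H849.PAD

universe u v

/-- Let `X` be a projective strictly semistable scheme, and let `f : Z → X` and `f' : Z' → X` be
Lefschetz maps with the same kernels on the cohomology of the strata of `X` (for example inclusions of
complete intersections of divisors with proportional ample classes, transversal to the strata). Only the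
special fibres enter, and `Z'` may live over a discrete valuation ring of characteristic `p`.

Suppose that `H^m` of the geometric generic fibre of `Z'` is mw pure. Let `D.V = H^m_pst` of a smooth
proper `K`-scheme such that, over a finite extension of `K`, it is a direct summand of the corresponding
group of `Z` (for example `Z` is an alteration). Then the assertion of the conjecture holds: for every
`s` and every `g` in the Weil group of `K`, every eigenvalue of `g` on the graded piece `gr_s` of the
monodromy filtration of `D.V` is an algebraic number all of whose complex conjugates have absolute value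
`p ^ ((m + s) val(g) / 2)`. -/
theorem result {Ω : Type u} [Field Ω] [CharZero Ω] [IsAlgClosed Ω] {Γ Γ' : Type} {N n q : ℕ}
    (p h : ℕ) (hq : q = p ^ h) (hh : 0 < h) (hq1 : 1 < q) (X : SpecialFibre.{u, v} Ω Γ N q)
    (Z Z' : SemistableModel.{u, v} Ω Γ' n q) (f : PullBacks X.toStrataData Z.toStrataData)
    (f' : PullBacks X.toStrataData Z'.toStrataData) (hf : IsLefschetzMap n f)
    (hf' : IsLefschetzMap n f') (hk : HaveSameKernels f f') (m : ℕ) (hpure : IsPureIn Z' m)
    (D : WeilModule.{u, v} Ω) (hD : D.IsTwistedBy p) (pull : D.V →ₗ[Ω] Z.V m)
    (push : Z.V m →ₗ[Ω] D.V) (hS : IsSummand D Z m h pull push) (s : ℤ) (g : D.G) :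
    D.WeightMonodromyAt m p s g := by
  refine wm_summand Z m p h hq hh ?_ D hD pull push hS s g
  have h1 := same_defects hf hf' hk m
  show IsPureIn Z m
  rw [pure_iff_defects hq1 m] at hpure ⊢
  intro k hk
  rw [(h1 k hk).1, (h1 k hk).2]
  exact hpure k hk

end Pool.Agent.Results.MP_6451f1_ag.OneSectionDecides
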