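import Pool.Agent.H367.OS.GPur
import Pool.Agent.H367.OS.FldP

/-!
# The p-adic monodromy-weight conjecture and single pieces of one sequence of cubics

A relation `r` of size `m` is one of the equations `x_i x_j = x_l`, `x_i + x_j = x_l`, `x_i = 1` with
`i, j, l < m`; the relations are numbered, the number of `r` is `ν(r)` (`relNum`). Let `G_m` be the
following polynomial with integral coefficients (`univG ℤ m`). There are variables `x_i` and `z_ij` for
`i, j < m`, a variable `c_r` for every relation `r`, and variables `y_{r,l}` for all relations `r` and
`l < (m + 1) 2 ^ ν(r)`. The equations (`eqnG`) are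

  `z_ij - x_i x_j`,  `c_r ^ 2 - c_r`,  `c_r ρ_r`,  `(1 - c_r) y_{r,l}`,

where `ρ_r` is the linear polynomial `z_ij - x_l`, `x_i + x_j - x_l` or `x_i - 1` of the relation.
`G_m` is the sum of the equations multiplied by further variables `t_e`, one for each equation. It has
degree three. Let `C_m` be the affine cubic hypersurface `G_m = 1` (`cubG R m` over the ring `R`); it is
smooth over the integers.

Let `M` be the category of motives over `ℚ` (motivated cycles), a semisimple abelian category with
Tate twists `N ↦ N(a)`. For a separated scheme `X` of finite type over `ℚ` let `D.G w j X = Gr^W_w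
H^j_c(X)` be the part of weight `w` of the cohomology with compact supports, a motive over `ℚ`; for
smooth projective `Y` it is `h^j(Y)` if `j = w`, and zero otherwise.

Let `E` be an algebraic closure of the field of fractions of the Witt vectors of the algebraic closure
of `𝔽_p`, `W` the Weil group of `ℚ_p`, and `v : W → ℤ` (here `d`), with `v = 1` for a geometric
Frobenius. For a motive `N` over `ℚ` let `ω m N` be the part of weight `m` of `D_pst` of the `p`-adic
realization of `N`, with coefficients extended to `E`, with the monodromy operator and the linear
action of `W`. `PureAt` says that for all `m`, `j` and `g ∈ W` the eigenvalues of `g` on the graded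
pieces `gr_j` of the monodromy filtration of the part of weight `m` are algebraic numbers all of whose
complex conjugates have the absolute value `p ^ ((m + j) v(g) / 2)`; the filtration is given by the
explicit formula `M_j = ∑_k N ^ k (ker N ^ (j + 2 k + 1))` (definitions of the library). For a finite
extension `K` of `ℚ_p` (that is, a complete field of characteristic zero with a discrete valuation and
finite residue field of characteristic `p`) let `claim K i X` be the statement of question Q1 for `X`
over `K` in the degree `i`. The following is known (hypothesis `Describes`).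

* For `Y` over `ℚ` the statement for `Y` over `ℚ_p` is the purity of `h^i(Y)`.
* A smooth proper `X` over `K` has an alteration with a semistable model after a finite extension of `K`,
  and `D_pst` of its cohomology depends only on the special fibre with its logarithmic structure
  (Hyodo, Kato, Tsuji); so there is a smooth projective scheme `X'` over a number field `F` dense in `K'`
  such that `D_pst` of `H^i(X)` is a direct factor of `D_pst` of `H^i(X')`, over a finite extension
  `K'` of `K` (which does not matter for the statement). It is part of the induced module `D_pst` of the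
  cohomology of `Y`, the scheme `X'` regarded as a scheme over `ℚ`.

**Theorem.** Let `E_m` be the number of the equations, and for `N ∈ ℕ` let `e = (m + 1) N + E_m - 1`
(`esh m N`).

(1) For every degree `i`: question Q1 has a positive answer for `H^i` (for all `K`, `X`, `s`, `g` with
the prime number `p`) if and only if for infinitely many `m` the single motives `Gr^W_{i+2e}
H^{i+2e+1}_c(C_m)`, for all `N`, are pure.

(2) Question Q1 has a positive answer (for `p`, in all degrees) if and only if for infinitely many `m`
the single motives `Gr^W_{j-1} H^j_c(C_m)` are pure, for all `j`.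

(3) The hypersurfaces `C_m` decide the statement for the pieces of the cohomology (`DecidesPlain`). For
every affine scheme `Spec B` of finite type over `ℚ` and all large `m` there is an `N` such that for
`0 ≤ w ≤ 2 m + 1` and all `j` the statement for `Gr^W_w H^j_c(Spec B)` is equivalent to the one for
`Gr^W_{w+2e} H^{j+2e+1}_c(C_m)`. For every smooth projective `Y` over `ℚ`, every `d` and all large `m`
there is an `e'` such that for all `i ≤ d` the statement for `h^i(Y)` is equivalent to the one for
`Gr^W_{i+2e'} H^{i+2e'+1}_c(C_m)`. The statements for the pieces of one `C_m` imply those for all pieces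
of a given separated scheme `X` of finite type.

(4) The known cases: the motives `Gr^W_w H^j_c(X)` are pure for `w ≤ 2`, for all separated schemes `X`
of finite type over `ℚ` and all `j`, and the single motives `Gr^W_{w+2e} H^{w+2e+1}_c(C_m)` are pure
for `w ≤ 2`, all `N` and infinitely many `m`.

(5) `G_m` has integral coefficients and degree at most three, and `C_m` is smooth over all rings.

The hypotheses on the motives are standard (`IsMot`): exact sequences, affine bundles, disjoint unions,
the cohomology of affine spaces, the weights of `H^j_c(X)` are between `0` and `2 dim X`, monomorphisms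
split, `Gr^W_w H^j_c(X)` is a direct factor of `h^w(Y)` for some smooth projective `Y` (it is a
subquotient, by the weight spectral sequence), and every smooth projective scheme has an affine bundle
whose total space is affine (Jouanolou).

Idea of the proof. The projection of `C_m` to the affine space with the coordinates `x, z, c, y` is an
affine bundle over the complement of the zero set `W_m` of the equations. The scheme `W_m` is the
disjoint union, over all sets `s` of relations (`c_r = 1` for `r ∈ s` and `c_r = 0` for the others), of
the products `X_s × 𝔸 ^ ((m + 1) N(s))`, where `X_s` is the affine scheme defined by the relations in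
`s` and `N(s) = ∑_{r ∈ s} 2 ^ ν(r)`. The numbers `N(s)` are different, and the weights of the
cohomology of `X_s` are between `0` and `2 m`. So the part of weight `w + 2 (m + 1) N(s)`,
`0 ≤ w ≤ 2 m + 1`, of the cohomology of `W_m` is the twist of the part of weight `w` of the cohomology of
`X_s`, and it is different from the weight of the cohomology of the affine space. Every affine scheme of
finite type over a prime field is an `X_s`, for all large `m`. The pieces of the cohomology of an
arbitrary scheme are direct factors of those of a disjoint union of affine schemes.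

The universal system of relations is the one of helper854 (`Pool.Agent.H854.SQ`).
-/

set_option autoImplicit false

open CategoryTheory CategoryTheory.Limits AlgebraicGeometry Pool.Agent.Y116.UV Pool.Agent.Z125.UN
  Pool.Agent.Q193.LT Pool.Agent.Q148.LI Pool.Agent.H854.SQ Pool.Agent.H367.OS

universe w v u



namespace Pool.Agent.Results.MP_6451f1_ag.PiecesOfOneSequence

/-- Question Q1 for the prime number `p` in the degree `i`. -/
def Q1 (p : ℕ) [Fact p.Prime]
    (claim : ∀ (K : Type) [Field K] [Algebra ℚ_[p] K], ℕ → Sch K → Prop) (i : ℕ) : Prop :=
  ∀ (K : Type) [Field K] [Algebra ℚ_[p] K] [FiniteDimensional ℚ_[p] K] (X : Sch K),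
    SmoothProper X → claim K i X

/-- The relation of question Q1 with motives over `ℚ`; `P` is the purity. -/
structure Describes {M : Type u} [Category.{v} M] (p : ℕ) [Fact p.Prime] (D : Pieces ℚ M)
    (P : M → Prop) (claim : ∀ (K : Type) [Field K] [Algebra ℚ_[p] K], ℕ → Sch K → Prop) :
    Prop where
  rational : ∀ i : ℕ, Q1 p claim i → ∀ Y : Sch ℚ, SmoothProj Y → P (D.G i i Y)
  reduce : ∀ (i : ℕ) (K : Type) [Field K] [Algebra ℚ_[p] K] [FiniteDimensional ℚ_[p] K]
    (X : Sch K), SmoothProper X → ∃ Y : Sch ℚ, SmoothProj Y ∧ (P (D.G i i Y) → claim K i X)

/-- **The p-adic monodromy-weight conjecture and single pieces of one sequence of cubics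
over the integers.** See the explanations above. `known` are the known cases `i ≤ 2` (and `i < 0`, where the
motives are zero). -/
theorem result {M : Type u} [Category.{v} M] [Abelian M] {D : Pieces ℚ M} (h : IsMot D)
    {E G : Type} [Field E] [CharZero E] {p : ℕ} [Fact p.Prime] {d : G → ℤ}
    {ω : ℤ → (M ⥤ ModuleCat.{w} (OpAlg E G))} (twist : IsTwisted D p d ω)
    {claim : ∀ (K : Type) [Field K] [Algebra ℚ_[p] K], ℕ → Sch K → Prop}
    (describes : Describes p D (PureAt p d ω) claim)
    (known : ∀ Y : Sch ℚ, SmoothProj Y → ∀ i : ℤ, i ≤ 2 → PureAt p d ω (D.G i i Y)) :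
    (∀ i : ℕ, Q1 p claim i ↔ ∃ᶠ m in Filter.atTop, ∀ N : ℕ,
      PureAt p d ω (D.G (i + 2 * esh m N) (i + 2 * esh m N + 1) (cubG ℚ m))) ∧
    ((∀ i : ℕ, Q1 p claim i) ↔ ∃ᶠ m in Filter.atTop, ∀ j : ℤ,
      PureAt p d ω (D.G (j - 1) j (cubG ℚ m))) ∧
    DecidesPlain D (PureAt p d ω) ∧
    ((∀ X : Sch ℚ, FT True X → ∀ w : ℕ, w ≤ 2 → ∀ j : ℤ, PureAt p d ω (D.G w j X)) ∧
      ∀ w : ℕ, w ≤ 2 → ∃ᶠ m in Filter.atTop, ∀ N : ℕ,
        PureAt p d ω (D.G (w + 2 * esh m N) (w + 2 * esh m N + 1) (cubG ℚ m))) ∧
    ∀ m : ℕ, (univG ℤ m).totalDegree ≤ 3 ∧
      ∀ (R : Type) [CommRing R], MvPolynomial.map (Int.castRingHom R) (univG ℤ m) = univG R m ∧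
        Smooth (cubG R m).hom := by
  have hd := decides_pure isPrimeField_rat h twist
  have h1 : ∀ i : ℕ, Q1 p claim i ↔ ∀ Y : Sch ℚ, SmoothProj Y → PureAt p d ω (D.G i i Y) := by
    intro i
    refine ⟨describes.rational i, fun g K _ _ _ X hX => ?_⟩
    obtain ⟨Y, hY, h2⟩ := describes.reduce i K X hX
    exact h2 (g Y hY)
  have h3 : (∀ Y : Sch ℚ, SmoothProj Y → ∀ i : ℤ, PureAt p d ω (D.G i i Y)) ↔
      ∃ᶠ m in Filter.atTop, ∀ j : ℤ, PureAt p d ω (D.G (j - 1) j (cubG ℚ m)) := hd.all.out 1 0
  refine ⟨fun i => (h1 i).trans ((hd.weight i).out 1 0), ?_, hd, ⟨?_, ?_⟩, cubG_facts⟩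
  · refine Iff.trans ⟨fun g Y hY i => ?_, fun g i => (h1 i).mpr fun Y hY => g Y hY i⟩ h3
    rcases lt_or_ge i 0 with hi | hi
    · exact known Y hY i (by omega)
    · lift i to ℕ using hi
      exact (h1 i).mp (g i) Y hY
  · intro X hX w hw j
    have h4 := (hd.weight w).out 1 2
    exact h4.mp (fun Y hY => known Y hY w (by exact_mod_cast hw)) X hX j
  · intro w hw
    have h4 := (hd.weight w).out 1 0
    exact h4.mp fun Y hY => known Y hY w (by exact_mod_cast hw)

end Pool.Agent.Results.MP_6451f1_ag.PiecesOfOneSequence
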